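import Pool.Agent.Helper56.UN.Cls

/-!
MP_d629b1_an, Q1 (expansive dilations with well-localized wavelets), `n = 2`: the classification of the
dilations with non-real eigenvalues and no rational power, up to those with two trinomial equations
(`TwoTrinomials`).
-/

set_option autoImplicit false

open Set Filter Topology Matrix

namespace Pool.Agent.Results.MP_d629b1_an.ComplexEigenvalues

/-- `A` is a root of a nonzero rational polynomial of degree at most three. -/
def Cubic (A : Matrix (Fin 2) (Fin 2) ℝ) : Prop :=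
  ∃ P : Polynomial ℚ, P ≠ 0 ∧ P.natDegree ≤ 3 ∧ Polynomial.aeval A P = 0

/-- For some distinct nonzero integers `b`, `c`, `d`, the matrices `A ^ c` and `A ^ d` are rational linear
combinations of `1` and `A ^ b`, and `A` is a rational polynomial in `A ^ b`. -/
def TwoTrinomials (A : Matrix (Fin 2) (Fin 2) ℝ) : Prop :=
  ∃ b c d : ℤ, b ≠ 0 ∧ c ≠ 0 ∧ d ≠ 0 ∧ b ≠ c ∧ b ≠ d ∧ c ≠ d ∧ (∃ x y x' y' : ℚ,
    A ^ c = (x : ℝ) • (1 : Matrix (Fin 2) (Fin 2) ℝ) + (y : ℝ) • A ^ b ∧
    A ^ d = (x' : ℝ) • (1 : Matrix (Fin 2) (Fin 2) ℝ) + (y' : ℝ) • A ^ b) ∧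
    ∃ R : Polynomial ℚ, A = Polynomial.aeval (A ^ b) R

/-- Let `A` be an expansive real `2 × 2` matrix with non-real eigenvalues, no power of which is rational.
(1) If `A` is a root of a nonzero rational polynomial of degree at most three, then `A` has a well-localized
orthonormal wavelet if and only if it has a nonzero exponent; in this case `1` is an exponent, and there is
a wavelet with Schwartz generators.  (2) Otherwise `A` has no well-localized orthonormal wavelet (with decay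
order `N > 3`), unless it satisfies two trinomial equations and is a polynomial in the power occurring in
them.  (3) For every non-real root `β`, `|β| > 1`, of an irreducible rational polynomial
`x³ + v x² + w x - u` with `(v, w) ≠ (0, 0)`, a matrix as in (1) with the eigenvalue `β`, the exponent `1`
and a wavelet with Schwartz generators exists. -/
theorem result :
    (∀ A : Matrix (Fin 2) (Fin 2) ℝ, _root_.Wav.Expansive A → A.trace ^ 2 < 4 * A.det →
      ¬ Pool.Agent.Helper54.WavS.HasRationalPower A →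
      (Cubic A →
        ((∃ N : ℝ, 2 < N ∧ WavN.HasWavelet N A) ↔ ∃ j : ℤ, j ≠ 0 ∧ j ∈ WavN.Exps A) ∧
        ((∃ j : ℤ, j ≠ 0 ∧ j ∈ WavN.Exps A) →
          (1 : ℤ) ∈ WavN.Exps A ∧ Pool.Agent.Helper54.WavS.HasSchwartzWavelet A)) ∧
      (¬ Cubic A → ¬ TwoTrinomials A → ¬ ∃ N : ℝ, 3 < N ∧ WavN.HasWavelet N A)) ∧
    ∀ (v w u : ℚ) (β : ℂ), (∀ x : ℚ, x ^ 3 + v * x ^ 2 + w * x ≠ u) → (v ≠ 0 ∨ w ≠ 0) →
      β ^ 3 + (v : ℂ) * β ^ 2 + (w : ℂ) * β = (u : ℂ) → β.im ≠ 0 → 1 < ‖β‖ →
      ∃ A : Matrix (Fin 2) (Fin 2) ℝ, _root_.Wav.Expansive A ∧ A.trace = 2 * β.re ∧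
        A.det = Complex.normSq β ∧ Cubic A ∧ ¬ Pool.Agent.Helper54.WavS.HasRationalPower A ∧
        (1 : ℤ) ∈ WavN.Exps A ∧ Pool.Agent.Helper54.WavS.HasSchwartzWavelet A :=
  ⟨fun A hE hnr hr => Pool.Agent.Helper56.UN.cls A hE hnr hr, Pool.Agent.Helper56.UN.ex1⟩

end Pool.Agent.Results.MP_d629b1_an.ComplexEigenvalues
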