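import Pool.Agent.Helper71.FX.All

/-!
# A flux condition for well-localized orthonormal wavelets

Let `A` be an expansive real matrix, `B` its transpose, for which there is an orthonormal wavelet
for `(A, ℤⁿ)` whose generators and their Fourier transforms decay like `|x|^(-N)` with `N > n`. Then

* the identity matrix is a finite sum of matrices `Q - |det A|^(-d) B^(-d) Q B^d`, where `d ≥ 1`
  and the columns of `Q` lie in the real span of `ℤⁿ ∩ B^d ℤⁿ`;
* the common vectors of the lattices `B^i ℤⁿ`, `i ∈ F`, and `B^j ℤⁿ`, `j ∉ F`, span `ℝⁿ`, for every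
  nonempty set `F` of integers which is bounded above;
* if `n ≥ 2`, the exponents `j` with `ℤⁿ ∩ B^j ℤⁿ ≠ 0` generate the group of integers;
* if `n` vectors `B^c h` with different exponents `c` are integer vectors and linearly independent
  over `ℝ`, then `A` is a root of a nonzero rational polynomial.
-/

namespace Pool.Agent.Results.MP_d629b1_an.FluxCondition

open WavN Matrix

theorem result (n : ℕ) (A : Matrix (Fin n) (Fin n) ℝ) (hA : Wav.Expansive A) (N : ℝ)
    (hN : (n : ℝ) < N) (hW : HasWavelet N A) :
    Pool.Agent.Helper71.FX.Flux A ∧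
      (∀ F : Set ℤ, F.Nonempty → BddAbove F → Submodule.span ℝ (Common A F) = ⊤) ∧
      (2 ≤ n → AddSubgroup.closure (Exps A) = ⊤) ∧
      (0 < n → ∀ (h : Wav.E n) (c : Fin n → ℤ), Function.Injective c →
        (∀ i, Wav.act (Aᵀ ^ c i) h ∈ Lat A 0) →
        LinearIndependent ℝ (fun i => Wav.act (Aᵀ ^ c i) h) →
        ∃ P : Polynomial ℚ, P ≠ 0 ∧ Polynomial.aeval A P = 0) :=
  Pool.Agent.Helper71.FX.final Pool.Agent.Helper71.FX.aMN n A hA N hN hW

end Pool.Agent.Results.MP_d629b1_an.FluxCondition
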