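import Pool.Agent.Helper54.Wav.Stmt2
import Pool.Agent.Helper54.Wav.Final3

/-!
# Well-localized orthonormal wavelets for expansive dilations with a rational power

Let `n ≥ 2` and let `A` be an expansive real `n × n` matrix such that some power `A ^ p`, `p ≥ 1`,
is rational. There is a well-localized orthonormal wavelet for `(A, ℤⁿ)` if and only if the
exponents `j` with `ℤⁿ ∩ (Aᵀ)^j ℤⁿ ≠ {0}` generate the group `ℤ`. In that case there is one with
Schwartz generators with compactly supported Fourier transforms.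
-/

namespace Pool.Agent.Results.MP_d629b1_an.RationalPower

open Pool.Agent.Helper54.WavS

lemma act_zero' {n : ℕ} (M : Matrix (Fin n) (Fin n) ℝ) : Wav.act M (0 : Wav.E n) = 0 := by
  unfold Wav.act
  simp

theorem exists_schwartz {n : ℕ} (hn : 0 < n) {A : Matrix (Fin n) (Fin n) ℝ}
    (hA : Wav.Expansive A) (hp : HasRationalPower A)
    (hJ : AddSubgroup.closure (WavN.Exps A) = ⊤) : HasSchwartzWavelet A := by
  obtain ⟨p, M, hp, hM⟩ := hp
  have hJ' : AddSubgroup.closure {j : ℤ | ∃ v w : Fin n → ℤ, v ≠ 0 ∧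
      (A.transpose ^ j).mulVec (Pool.Agent.Helper54.Wav.zv v) =
        Pool.Agent.Helper54.Wav.zv w} = ⊤ := by
    convert hJ using 2
    ext j
    have e0 : ∀ p : Fin n → ℤ, Wav.act (A.transpose ^ (0 : ℤ)) (Wav.ivec p) = Wav.ivec p := by
      intro p
      rw [zpow_zero]
      exact Wav.act_one _
    constructor
    · rintro ⟨v, w, hv, hvw⟩
      have h1 : Wav.act (A.transpose ^ j) (Wav.ivec v) = Wav.ivec w := by
        unfold Wav.act Wav.ivec
        exact congrArg (WithLp.toLp 2) hvw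
      refine ⟨Wav.ivec w, fun h0 => hv ?_, ⟨w, e0 w⟩, ⟨v, h1⟩⟩
      have hdet : A.det ≠ 0 := Wav.expansive_det hA
      have hdetT : (A.transpose ^ j).det ≠ 0 :=
        Pool.Agent.Helper54.Wav.det_zpow_ne _ (by rwa [Matrix.det_transpose]) _
      apply WavN.ivec_eq_zero
      apply Wav.act_inj hdetT
      rw [h1, h0]
      exact (act_zero' _).symm
    · rintro ⟨x, hx, ⟨w, hw⟩, ⟨v, hv⟩⟩
      simp only at hw hv
      rw [e0] at hw
      refine ⟨v, w, ?_, ?_⟩
      · rintro rfl
        apply hx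
        rw [← hv]
        have : (Wav.ivec (0 : Fin n → ℤ) : Wav.E n) = 0 := by
          ext i
          simp [Wav.ivec]
        rw [this]
        exact act_zero' _
      · have h1 : Wav.act (A.transpose ^ j) (Wav.ivec v) = Wav.ivec w := by rw [hv, hw]
        exact congrArg WithLp.ofLp h1
  obtain ⟨L, ψ, hL, h1, h2⟩ := Pool.Agent.Helper54.Wav.existence_power hn A hA p hp M hM hJ'
  exact ⟨L, fun l => ψ l, hL, fun l => ⟨ψ l, fun _ => rfl⟩, h1, (isONWavelet_iff _ _).2 h2⟩

theorem result (n : ℕ) (hn : 2 ≤ n) (A : Matrix (Fin n) (Fin n) ℝ) (hA : Wav.Expansive A)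
    (hp : HasRationalPower A) :
    ((∃ N : ℝ, (n : ℝ) < N ∧ WavN.HasWavelet N A) ↔
      AddSubgroup.closure (WavN.Exps A) = ⊤) ∧
    (AddSubgroup.closure (WavN.Exps A) = ⊤ → HasSchwartzWavelet A) := by
  have h1 : AddSubgroup.closure (WavN.Exps A) = ⊤ → HasSchwartzWavelet A :=
    exists_schwartz (by omega) hA hp
  refine ⟨⟨?_, fun h => ⟨n + 1, by simp, (h1 h).hasWavelet _⟩⟩, h1⟩
  rintro ⟨N, hN, hW⟩
  exact WavN.exps_closure hn hA hN hW

end Pool.Agent.Results.MP_d629b1_an.RationalPower
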