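import Pool.Agent.Helper71.TA.Main

/-!
# Well-localized orthonormal wavelets for expansive dilations without a rational power

Let `n ≥ 2`, let `A` be an expansive real `n × n` matrix such that no power `A ^ p`, `p ≥ 1`, is
rational, and let `B` be its transpose. Suppose that `(A, ℤⁿ)` has an orthonormal wavelet with
finitely many generators which, together with their Fourier transforms, decay like `|x|^(-N)` for
some `N > n + 1`. If the lattices `B^j ℤⁿ` are aligned (a common nonzero vector of three of them
forces the common vectors of any two of the three to have positive multiples in the third), then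
there is a tetrahedral configuration: four distinct exponents for which the lattices meet pairwise,
while three of the four triples of lattices have only the zero vector in common. For `n = 2` the
lattices are always aligned, so that there always is a tetrahedral configuration; moreover for
`n = 2` all entries of `A` are algebraic numbers.
-/

namespace Pool.Agent.Results.MP_d629b1_an.WithoutRationalPower

open Pool.Agent.Helper56.WV

theorem result (n : ℕ) (hn : 2 ≤ n) (A : Matrix (Fin n) (Fin n) ℝ) (hA : Wav.Expansive A)
    (hr : ¬ Pool.Agent.Helper54.WavS.HasRationalPower A) (N : ℝ) (hN : (n : ℝ) + 1 < N)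
    (hW : WavN.HasWavelet N A) :
    (¬ Aligned (Gam A) ∨ Tetra (Gam A)) ∧
      (n = 2 → Tetra (Gam A) ∧ ∀ i j, IsAlgebraic ℚ (A i j)) := by
  refine ⟨?_, ?_⟩
  · by_cases hal : Aligned (Gam A)
    · exact Or.inr (tetra_of_aligned hn hA hr hN hW hal)
    · exact Or.inl hal
  · rintro rfl
    have hN' : (3 : ℝ) < N := by norm_num at hN; linarith
    exact ⟨tetra_of_two hA hr hN' hW, Pool.Agent.Helper71.TA.algebraic_of_wavelet hA hr hN' hW⟩

end Pool.Agent.Results.MP_d629b1_an.WithoutRationalPower
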